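import Mathlib

set_option autoImplicit false

/-!
The lemma of Elliott (Perron's algorithm) in linearly ordered abelian groups (job DT-ELL).
-/

universe u

namespace Pool.Agent.Y454.DT

variable {Γ : Type u} [AddCommGroup Γ] [LinearOrder Γ] [IsOrderedAddMonoid Γ]

/-- the family `d` is in the cone of a linearly independent family of positive elements -/
def Good {m : ℕ} (d : Fin m → Γ) : Prop :=
  ∃ (s : ℕ) (η : Fin s → Γ), (∀ j, 0 < η j) ∧ LinearIndependent ℤ η ∧
    (∀ j, η j ∈ AddSubgroup.closure (Set.range d)) ∧
    ∀ i, d i ∈ Submodule.span ℕ (Set.range η)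

theorem good_trans {m m' : ℕ} {d : Fin m → Γ} {d' : Fin m' → Γ} (h : Good d')
    (h1 : ∀ i, d' i ∈ AddSubgroup.closure (Set.range d))
    (h2 : ∀ i, d i ∈ Submodule.span ℕ (Set.range d')) : Good d := by
  obtain ⟨s, η, hp, hl, hc, hs⟩ := h
  refine ⟨s, η, hp, hl, fun j => ?_, fun i => ?_⟩
  · have h3 : AddSubgroup.closure (Set.range d') ≤ AddSubgroup.closure (Set.range d) := by
      rw [AddSubgroup.closure_le]
      rintro _ ⟨i, rfl⟩
      exact h1 i
    exact h3 (hc j)
  · have h3 : Submodule.span ℕ (Set.range d') ≤ Submodule.span ℕ (Set.range η) := by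
      rw [Submodule.span_le]
      rintro _ ⟨i, rfl⟩
      exact hs i
    exact h3 (h2 i)

theorem good_upd {m : ℕ} {d : Fin m → Γ} {p q : Fin m} (hpq : p ≠ q)
    (h : Good (Function.update d p (d p - d q))) : Good d := by
  refine good_trans h (fun i => ?_) (fun i => ?_)
  · by_cases hi : i = p
    · subst hi
      rw [Function.update_self]
      exact sub_mem (AddSubgroup.subset_closure ⟨_, rfl⟩) (AddSubgroup.subset_closure ⟨_, rfl⟩)
    · rw [Function.update_of_ne hi]
      exact AddSubgroup.subset_closure ⟨_, rfl⟩
  · have hq : d q ∈ Submodule.span ℕ (Set.range (Function.update d p (d p - d q))) := by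
      refine Submodule.subset_span ⟨q, ?_⟩
      rw [Function.update_of_ne hpq.symm]
    by_cases hi : i = p
    · subst hi
      have h1 : d i - d q ∈ Submodule.span ℕ (Set.range (Function.update d i (d i - d q))) := by
        refine Submodule.subset_span ⟨i, ?_⟩
        rw [Function.update_self]
      have h2 := add_mem h1 hq
      rwa [sub_add_cancel] at h2
    · refine Submodule.subset_span ⟨i, ?_⟩
      rw [Function.update_of_ne hi]

theorem pos_upd {m : ℕ} {d : Fin m → Γ} (hd : ∀ i, 0 < d i) {p q : Fin m} (h : d q < d p) :
    ∀ i, 0 < Function.update d p (d p - d q) i := by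
  intro i
  by_cases hi : i = p
  · subst hi
    rw [Function.update_self]
    exact sub_pos.2 h
  · rw [Function.update_of_ne hi]
    exact hd i

theorem rel_upd {m : ℕ} {d : Fin m → Γ} {n : Fin m → ℤ} (h : ∑ i, n i • d i = 0) {p q : Fin m}
    (hpq : p ≠ q) :
    ∑ i, Function.update n q (n q + n p) i • Function.update d p (d p - d q) i = 0 := by
  have e1 : ∀ i, Function.update n q (n q + n p) i • Function.update d p (d p - d q) i =
      n i • d i - (if i = p then n p • d q else 0) + (if i = q then n p • d q else 0) := by
    intro i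
    by_cases hi : i = p
    · subst hi
      rw [Function.update_of_ne hpq, Function.update_self, if_pos rfl, if_neg hpq, add_zero,
        smul_sub]
    · by_cases hi' : i = q
      · subst hi'
        rw [Function.update_self, Function.update_of_ne hi, if_neg hi, if_pos rfl, sub_zero,
          add_smul]
      · rw [Function.update_of_ne hi', Function.update_of_ne hi, if_neg hi, if_neg hi', sub_zero,
          add_zero]
  rw [Finset.sum_congr rfl fun i _ => e1 i, Finset.sum_add_distrib, Finset.sum_sub_distrib, h,
    Finset.sum_ite_eq' Finset.univ p, Finset.sum_ite_eq' Finset.univ q, if_pos (Finset.mem_univ _),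
    if_pos (Finset.mem_univ _)]
  abel

theorem exists_neg {m : ℕ} {d : Fin m → Γ} (hd : ∀ i, 0 < d i) {n : Fin m → ℤ}
    (h : ∑ i, n i • d i = 0) {p : Fin m} (hp : 0 < n p) : ∃ q, n q < 0 := by
  by_contra hq
  push Not at hq
  have h1 : ∀ i ∈ Finset.univ, 0 ≤ n i • d i := fun i _ => zsmul_nonneg (hd i).le (hq i)
  have h2 := (Finset.sum_eq_zero_iff_of_nonneg h1).1 h p (Finset.mem_univ _)
  have h3 : 0 < n p • d p := zsmul_pos (hd p) hp
  exact h3.ne' h2

section
variable {m : ℕ} (ihm : ∀ d : Fin m → Γ, (∀ i, 0 < d i) → Good d)

include ihm in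
theorem good_drop {d : Fin (m + 1) → Γ} (hd : ∀ i, 0 < d i) {p q : Fin (m + 1)} (hpq : p ≠ q)
    (h : d p = d q) : Good d := by
  refine good_trans (ihm (fun i => d (q.succAbove i)) (fun i => hd _)) (fun i => ?_) (fun i => ?_)
  · exact AddSubgroup.subset_closure ⟨_, rfl⟩
  · have h1 : ∀ j, j ≠ q → d j ∈ Submodule.span ℕ (Set.range fun i => d (q.succAbove i)) := by
      intro j hj
      obtain ⟨l, hl⟩ := Fin.exists_succAbove_eq hj
      exact Submodule.subset_span ⟨l, by simp only [hl]⟩
    by_cases hi : i = q
    · subst hi
      rw [← h]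
      exact h1 p hpq
    · exact h1 i hi

/-- all relations with coefficients at most `M`, at most `c` of them equal to `M` in absolute
value -/
def QQ (Γ : Type u) [AddCommGroup Γ] [LinearOrder Γ] [IsOrderedAddMonoid Γ] (m M c : ℕ) : Prop :=
  ∀ (d : Fin (m + 1) → Γ) (n : Fin (m + 1) → ℤ), (∀ i, 0 < d i) →
    n ≠ 0 → ∑ i, n i • d i = 0 → (∀ i, (n i).natAbs ≤ M) →
    (Finset.univ.filter fun i => (n i).natAbs = M).card ≤ c → Good d

include ihm in
theorem RR {M c : ℕ} (hQ : QQ Γ m M c) : ∀ (k : ℕ) (d : Fin (m + 1) → Γ) (n : Fin (m + 1) → ℤ),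
    (∀ i, 0 < d i) → ∑ i, n i • d i = 0 → (∀ i, (n i).natAbs ≤ M) →
    (Finset.univ.filter fun i => (n i).natAbs = M).card ≤ c + 1 →
    (Finset.univ.filter fun i => n i < 0).card ≤ k → (∃ p, 0 < n p ∧ (n p).natAbs = M) →
    Good d := by
  intro k
  induction k with
  | zero =>
    rintro d n hd hr hM hc hk ⟨p, hp, hpM⟩
    obtain ⟨q, hq⟩ := exists_neg hd hr hp
    have h1 : q ∈ (Finset.univ.filter fun i => n i < 0) := Finset.mem_filter.2 ⟨Finset.mem_univ _, hq⟩
    have h2 := Finset.card_pos.2 ⟨q, h1⟩
    omega
  | succ k ih =>
    rintro d n hd hr hM hc hk ⟨p, hp, hpM⟩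
    obtain ⟨q, hq⟩ := exists_neg hd hr hp
    have hpq : p ≠ q := by
      rintro rfl
      omega
    have hMq := hM q
    rcases lt_trichotomy (d p) (d q) with h | h | h
    · -- `d q` becomes `d q - d p`, `n p` becomes `n p + n q`
      refine good_upd hpq.symm (hQ _ (Function.update n p (n p + n q)) (pos_upd hd h) ?_
        (rel_upd hr hpq.symm) ?_ ?_)
      · intro h0
        have h1 := congrFun h0 q
        rw [Function.update_of_ne hpq.symm] at h1
        rw [h1] at hq
        exact lt_irrefl _ hq
      · intro i
        by_cases hi : i = p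
        · subst hi
          rw [Function.update_self]
          omega
        · rw [Function.update_of_ne hi]
          exact hM i
      · have hsub : (Finset.univ.filter fun i => (Function.update n p (n p + n q) i).natAbs = M) ⊆
            (Finset.univ.filter fun i => (n i).natAbs = M).erase p := by
          intro i hi
          have hi1 := (Finset.mem_filter.1 hi).2
          have hip : i ≠ p := by
            rintro rfl
            rw [Function.update_self] at hi1
            omega
          rw [Function.update_of_ne hip] at hi1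
          exact Finset.mem_erase.2 ⟨hip, Finset.mem_filter.2 ⟨Finset.mem_univ _, hi1⟩⟩
        have h1 := Finset.card_le_card hsub
        have h2 : p ∈ (Finset.univ.filter fun i => (n i).natAbs = M) :=
          Finset.mem_filter.2 ⟨Finset.mem_univ _, hpM⟩
        rw [Finset.card_erase_of_mem h2] at h1
        omega
    · exact good_drop ihm hd hpq h
    · -- `d p` becomes `d p - d q`, `n q` becomes `n q + n p`
      refine good_upd hpq (ih _ (Function.update n q (n q + n p)) (pos_upd hd h)
        (rel_upd hr hpq) ?_ ?_ ?_ ?_)
      · intro i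
        by_cases hi : i = q
        · subst hi
          rw [Function.update_self]
          omega
        · rw [Function.update_of_ne hi]
          exact hM i
      · have hsub : (Finset.univ.filter fun i => (Function.update n q (n q + n p) i).natAbs = M) ⊆
            (Finset.univ.filter fun i => (n i).natAbs = M) := by
          intro i hi
          have hi1 := (Finset.mem_filter.1 hi).2
          have hip : i ≠ q := by
            rintro rfl
            rw [Function.update_self] at hi1
            omega
          rw [Function.update_of_ne hip] at hi1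
          exact Finset.mem_filter.2 ⟨Finset.mem_univ _, hi1⟩
        exact (Finset.card_le_card hsub).trans hc
      · have hsub : (Finset.univ.filter fun i => Function.update n q (n q + n p) i < 0) ⊆
            (Finset.univ.filter fun i => n i < 0).erase q := by
          intro i hi
          have hi1 := (Finset.mem_filter.1 hi).2
          have hip : i ≠ q := by
            rintro rfl
            rw [Function.update_self] at hi1
            omega
          rw [Function.update_of_ne hip] at hi1
          exact Finset.mem_erase.2 ⟨hip, Finset.mem_filter.2 ⟨Finset.mem_univ _, hi1⟩⟩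
        have h1 := Finset.card_le_card hsub
        have h2 : q ∈ (Finset.univ.filter fun i => n i < 0) :=
          Finset.mem_filter.2 ⟨Finset.mem_univ _, hq⟩
        rw [Finset.card_erase_of_mem h2] at h1
        omega
      · refine ⟨p, ?_, ?_⟩ <;> rw [Function.update_of_ne hpq] <;> assumption

include ihm in
theorem QQ_all : ∀ M c : ℕ, QQ Γ m M c := by
  intro M
  induction M with
  | zero =>
    intro c d n hd h0 hr hM hc
    exfalso
    apply h0
    funext i
    have := hM i
    show n i = 0
    omega
  | succ M ihM =>
    intro c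
    induction c with
    | zero =>
      intro d n hd h0 hr hM hc
      have h1 : ∀ i, (n i).natAbs ≤ M := by
        intro i
        have h2 := hM i
        by_contra h3
        have h4 : i ∈ (Finset.univ.filter fun i => (n i).natAbs = M + 1) :=
          Finset.mem_filter.2 ⟨Finset.mem_univ _, by omega⟩
        have h5 := Finset.card_pos.2 ⟨i, h4⟩
        omega
      exact ihM (m + 1) d n hd h0 hr h1 ((Finset.card_le_univ _).trans (Fintype.card_fin _).le)
    | succ c ihc =>
      intro d n hd h0 hr hM hc
      by_cases he : ∃ i, (n i).natAbs = M + 1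
      · obtain ⟨i, hi⟩ := he
        rcases lt_or_ge (n i) 0 with hs | hs
        · have hr' : ∑ i, (-n i) • d i = 0 := by
            simp only [neg_smul]
            rw [Finset.sum_neg_distrib, hr, neg_zero]
          refine RR ihm ihc (m + 1) d (fun i => -n i) hd hr' ?_ ?_
            ((Finset.card_le_univ _).trans (Fintype.card_fin _).le) ⟨i, ?_, ?_⟩
          · intro i
            rw [Int.natAbs_neg]
            exact hM i
          · simp only [Int.natAbs_neg]
            exact hc
          · show 0 < -n i
            omega
          · show (-n i).natAbs = M + 1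
            omega
        · exact RR ihm ihc (m + 1) d n hd hr hM hc
            ((Finset.card_le_univ _).trans (Fintype.card_fin _).le) ⟨i, by omega, hi⟩
      · push Not at he
        refine ihc d n hd h0 hr hM ?_
        have h1 : (Finset.univ.filter fun i => (n i).natAbs = M + 1) = ∅ := by
          rw [Finset.filter_eq_empty_iff]
          exact fun i _ => he i
        rw [h1]
        exact Nat.zero_le _

end

theorem good_all : ∀ (m : ℕ) (d : Fin m → Γ), (∀ i, 0 < d i) → Good d := by
  intro m
  induction m with
  | zero =>
    intro d hd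
    exact ⟨0, d, hd, linearIndependent_empty_type, fun j => j.elim0, fun i => i.elim0⟩
  | succ m ihm =>
    intro d hd
    by_cases hl : LinearIndependent ℤ d
    · exact ⟨m + 1, d, hd, hl, fun j => AddSubgroup.subset_closure ⟨j, rfl⟩,
        fun i => Submodule.subset_span ⟨i, rfl⟩⟩
    · rw [Fintype.linearIndependent_iff] at hl
      push Not at hl
      obtain ⟨n, hr, i, hi⟩ := hl
      have hb : ∀ j, (n j).natAbs ≤ ∑ i, (n i).natAbs := fun j =>
        Finset.single_le_sum (f := fun i => (n i).natAbs) (fun _ _ => Nat.zero_le _) (Finset.mem_univ j)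
      exact QQ_all ihm (∑ i, (n i).natAbs) (m + 1) d n hd (fun h => hi (congrFun h i)) hr hb
        ((Finset.card_le_univ _).trans (Fintype.card_fin _).le)

/-- **The lemma of Elliott.** -/
theorem ell_core (D : Finset Γ) (hD : ∀ d ∈ D, 0 < d) : ∃ (s : ℕ) (η : Fin s → Γ),
    (∀ j, 0 < η j) ∧ LinearIndependent ℤ η ∧
      (∀ j, η j ∈ AddSubgroup.closure (D : Set Γ)) ∧
      ∀ d ∈ D, ∃ n : Fin s → ℕ, d = ∑ j, n j • η j := by
  let e := D.equivFin
  obtain ⟨s, η, hp, hl, hc, hs⟩ := good_all D.card (fun i => (e.symm i : Γ))
    (fun i => hD _ (e.symm i).2)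
  have hr : Set.range (fun i => (e.symm i : Γ)) = (D : Set Γ) := by
    ext x
    constructor
    · rintro ⟨i, rfl⟩
      exact (e.symm i).2
    · intro hx
      exact ⟨e ⟨x, hx⟩, by simp⟩
  rw [hr] at hc
  refine ⟨s, η, hp, hl, hc, fun d hd => ?_⟩
  have h1 := hs (e ⟨d, hd⟩)
  simp only [Equiv.symm_apply_apply] at h1
  obtain ⟨n, hn⟩ := (Submodule.mem_span_range_iff_exists_fun ℕ).1 h1
  exact ⟨n, hn.symm⟩

end Pool.Agent.Y454.DT
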